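import Pool.Agent.Helper34.AG.Final

set_option autoImplicit false

open Pointwise

namespace Pool.Agent.Results.MP_98e9ed_al.AlternatingFullGroups

universe u v

/-- The gap conjecture (with its exact threshold `1/2`) for all finitely generated groups which
contain the alternating full group of an action by homeomorphisms on a compact Hausdorff totally
disconnected space without finite orbits: the growth function is at least `exp (c n ^ α)` for
every `α < 1/2`. -/
theorem result : ∀ (G : Type u) [Group G] (S : Set G), S.Finite → Subgroup.closure S = ⊤ →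
    ∀ (X : Type v) [TopologicalSpace X] [CompactSpace X] [T2Space X]
      [TotallyDisconnectedSpace X] [Nonempty X] [MulAction G X] [ContinuousConstSMul G X],
    (∀ x : X, (MulAction.orbit G x).Infinite) →
    (∀ (U : Set X) (g h : G), IsClopen U → Disjoint U (g • U) → Disjoint U (h • U) →
      Disjoint (g • U) (h • U) →
      ∃ t : G, (∀ x ∈ U, t • x = g • x ∧ t • (g • x) = h • x ∧ t • (h • x) = x) ∧
        ∀ x : X, x ∉ U → x ∉ g • U → x ∉ h • U → t • x = x) →
    ∀ α : ℝ, 0 < α → α < 1 / 2 →
    ∃ c : ℝ, 0 < c ∧ ∀ n : ℕ, Real.exp (c * (n : ℝ) ^ α) ≤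
      (Nat.card ↥((({1} : Set G) ∪ S ∪ S⁻¹) ^ n) : ℝ) := by
  intro G _ S hS hgen X _ _ _ _ _ _ _ hinf halt α h0 h1
  exact Pool.Agent.Helper34.AG.main G S hS hgen X hinf halt α h0 h1

end Pool.Agent.Results.MP_98e9ed_al.AlternatingFullGroups
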