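import Pool.Agent.Helper94.BC.Main
import Pool.Agent.Helper47.BCP.Res

set_option autoImplicit false

open scoped Pointwise

namespace Pool.Agent.Results.MP_98e9ed_al.BoundedSections

/-- The growth with respect to `S` is at most of type `exp (r ^ c)`. -/
def GrowthLe {G : Type} [Group G] (S : Set G) (c : ℝ) : Prop :=
  ∃ C : ℝ, 0 < C ∧ ∀ r : ℕ, (Nat.card ↥((({1} : Set G) ∪ S ∪ S⁻¹) ^ r) : ℝ) ≤
    C * Real.exp ((C * r) ^ c)

/-- Virtually nilpotent groups. -/
def VirtNil (G : Type) [Group G] : Prop :=
  ∃ H : Subgroup G, H.FiniteIndex ∧ Group.IsNilpotent H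

/-- All non-abelian simple sections `K / L` of `H` have order at most `B`. -/
def SecLe (B : ℕ) (H : Type) [Group H] : Prop :=
  ∀ (K : Subgroup H) (L : Subgroup K) [L.Normal], IsSimpleGroup (K ⧸ L) →
    (∃ a b : K ⧸ L, a * b ≠ b * a) → Nat.card (K ⧸ L) ≤ B

/-- The intersection of the normal subgroups `N` of finite index such that all non-abelian simple
sections of `G / N` have order at most `B`. -/
def Residual (B : ℕ) (G : Type) [Group G] : Subgroup G :=
  sInf {N : Subgroup G | ∃ _ : N.Normal, N.FiniteIndex ∧ SecLe B (G ⧸ N)}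

/-- `G` acts faithfully on a rooted tree with at most `d` children at every vertex: `X i` is the
level `i`, `par` maps a vertex of the level `i + 1` to its parent. -/
def TreeAct (d : ℕ) (G : Type) [Group G] : Prop :=
  ∃ (X : ℕ → Type) (_ : ∀ i, MulAction G (X i)) (par : ∀ i, X (i + 1) → X i),
    (∀ (i : ℕ) (g : G) (x : X (i + 1)), par i (g • x) = g • par i x) ∧ Subsingleton (X 0) ∧
      (∀ (i : ℕ) (x : X i), {y : X (i + 1) | par i y = x}.Finite ∧
        Nat.card {y : X (i + 1) | par i y = x} ≤ d) ∧
      ∀ g : G, g ≠ 1 → ∃ (i : ℕ) (x : X i), g • x ≠ x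

/-- For every `B` there is `c > 0` such that for every finitely generated group `G` of growth at
most of type `exp (r ^ c)` the residual `R = Residual B G` is finitely generated, `G / R` is
virtually nilpotent, `R` has no non-trivial finite quotient all of whose non-abelian simple sections
have order at most `B`, and if `R` is virtually nilpotent (for instance trivial), then so is `G`.
In particular, for every `d` there is `c > 0` such that a finitely generated group of growth at most
of type `exp (r ^ c)`, which acts faithfully on a rooted tree with at most `d` children at every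
vertex, is virtually nilpotent. -/
theorem result :
    (∀ B : ℕ, ∃ c : ℝ, 0 < c ∧ ∀ (G : Type) [Group G] (S : Set G), S.Finite →
      Subgroup.closure S = ⊤ → GrowthLe S c → ∃ (R : Subgroup G) (_ : R.Normal),
        R = Residual B G ∧ R.FG ∧ VirtNil (G ⧸ R) ∧ (VirtNil R → VirtNil G) ∧
        ∀ (M : Subgroup R) [M.Normal], M.FiniteIndex → SecLe B (R ⧸ M) → M = ⊤) ∧
    (∀ d : ℕ, ∃ c : ℝ, 0 < c ∧ ∀ (G : Type) [Group G] (S : Set G), S.Finite →
      Subgroup.closure S = ⊤ → GrowthLe S c → TreeAct d G → VirtNil G) := by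
  refine ⟨fun B => ?_, fun d => ?_⟩
  · obtain ⟨c, hc, h⟩ := Pool.Agent.Helper47.BCP.res B
    refine ⟨c, hc, fun G _ S hSf hS hgr => ?_⟩
    obtain ⟨h1, ⟨hn, h2⟩, h3, h4⟩ := h G S hSf hS hgr (Residual B G) rfl
    exact ⟨Residual B G, hn, rfl, h1, h2, h4, fun M _ hM hs => h3 M hM hs⟩
  · obtain ⟨c, hc, h⟩ := Pool.Agent.Helper94.BC.main.2 d
    refine ⟨c, hc, fun G _ S hSf hS hgr ht => ?_⟩
    obtain ⟨X, hX, par, hpar, h0, hd, hf⟩ := ht
    exact h G S hSf hS hgr X par hpar h0 hd hf

end Pool.Agent.Results.MP_98e9ed_al.BoundedSections
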