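import Pool.Agent.Helper98.RS.All2

set_option autoImplicit false

open Pointwise

namespace Pool.Agent.Results.MP_98e9ed_al.GapBelowOneQuarter

/-- Finitely generated groups with growth at most of type `exp (r ^ α)`, `α < 1 / 4`: the derived
series reaches a finitely generated perfect subgroup after finitely many steps, with virtually
nilpotent quotient; if all finitely generated perfect subgroups are virtually nilpotent, or if the
group is residually soluble or left orderable, then it is virtually nilpotent. -/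
theorem result : ∀ (G : Type) [Group G] (S : Set G), S.Finite → Subgroup.closure S = ⊤ →
    ∀ α : ℝ, α < 1 / 4 →
      (∃ C : ℝ, 0 < C ∧ ∀ r : ℕ, (Nat.card ↥((({1} : Set G) ∪ S ∪ S⁻¹) ^ r) : ℝ) ≤
        C * Real.exp ((C * r) ^ α)) →
      (∃ k : ℕ, (derivedSeries G k).FG ∧ derivedSeries G (k + 1) = derivedSeries G k ∧
        ∃ H : Subgroup (G ⧸ derivedSeries G k), H.FiniteIndex ∧ Group.IsNilpotent H) ∧
      ((∀ P : Subgroup G, P.FG → ⁅P, P⁆ = P →
          ∃ H : Subgroup P, H.FiniteIndex ∧ Group.IsNilpotent H) →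
        ∃ H : Subgroup G, H.FiniteIndex ∧ Group.IsNilpotent H) ∧
      ((∀ g : G, g ≠ 1 → ∃ (N : Subgroup G) (_ : N.Normal), g ∉ N ∧ Group.IsSolvable (G ⧸ N)) →
        ∃ H : Subgroup G, H.FiniteIndex ∧ Group.IsNilpotent H) ∧
      ((∃ lt : G → G → Prop, (∀ x y, lt x y ∨ x = y ∨ lt y x) ∧ (∀ x, ¬ lt x x) ∧
          (∀ x y z, lt x y → lt y z → lt x z) ∧ (∀ z x y, lt x y → lt (z * x) (z * y))) →
        ∃ H : Subgroup G, H.FiniteIndex ∧ Group.IsNilpotent H) :=
  fun G _ S hSf hS α hα hgr => Pool.Agent.Helper98.RS.all_final G S hSf hS α hα hgr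

end Pool.Agent.Results.MP_98e9ed_al.GapBelowOneQuarter
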