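import Pool.Agent.Helper41.Gap.Final2

set_option autoImplicit false

open Pointwise

namespace Pool.Agent.Results.MP_98e9ed_al.QuasiPolynomialGap

/-- A gap theorem for group growth: if the growth function of a finitely generated group is at most
of type `r ^ ((log r) ^ (1/32))`, then the group is virtually nilpotent. -/
theorem result : ∀ (G : Type) [Group G] (S : Set G), S.Finite → Subgroup.closure S = ⊤ →
    (∃ C : ℝ, 0 < C ∧ ∃ r0 : ℕ, ∀ r : ℕ, r0 ≤ r →
      (Nat.card ↥((({1} : Set G) ∪ S ∪ S⁻¹) ^ r) : ℝ) ≤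
        C * (C * r) ^ ((Real.log (C * r)) ^ (1 / 32 : ℝ))) →
    ∃ H : Subgroup G, H.FiniteIndex ∧ Group.IsNilpotent H :=
  Pool.Agent.Helper41.Gap.final2

end Pool.Agent.Results.MP_98e9ed_al.QuasiPolynomialGap
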